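import Pool.Agent.R293.RFK.Lower
import Pool.Agent.R293.RFK.TestFn

/-!
# MP_d36e13_an: the reverse Faber-Krahn inequality for a localized magnetic field fails

The plane is `ℂ`.  For the flux `Φ = 2j` and the pair of concentric discs of radii `1`, `1/2`, the
gauge function `(z / \bar z)^j` gives a test function vanishing on the core, whose energy does not
depend on `j`.  So `λ(2j, D_1, D_{1/2}) ≤ Λ` for all `j`.

For `Ω` the ellipse with semi-axes `1/c`, `c` and `ω` the ellipse with semi-axes `(1 - c²)/c`,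
`c/(4(1 - c²))` (areas `π`, `π/4`), the commutator identity `[D₁, D₂] = -i curl A` shows that a
large field forces `u` to be small on `ω`, and every point of `Ω` is joined to `ω` by a path of
length `≤ 2c`.  This gives `λ(Φ, Ω, ω) ≥ 1/(258 c²)` for all large `Φ`.
-/

set_option autoImplicit false

open MeasureTheory Set Complex Topology
open scoped ContDiff NNReal ENNReal

noncomputable section

namespace Pool.Agent.Results.MP_d36e13_an.NoReverseFaberKrahn

open Pool.Agent.R293.RFK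

/-- `Ω ⊆ ℝ² = ℂ` is a bounded simply connected domain with `C¹` boundary: near every boundary point
`Ω` is the set where a `C¹` function with non-zero differential is negative. -/
structure IsC1Domain (Ω : Set ℂ) : Prop where
  isOpen : IsOpen Ω
  bounded : Bornology.IsBounded Ω
  simplyConnected : SimplyConnectedSpace Ω
  boundary : ∀ p ∈ frontier Ω, ∃ U ∈ 𝓝 p, ∃ f : ℂ → ℝ, ContDiffOn ℝ 1 f U ∧
    fderiv ℝ f p ≠ 0 ∧ ∀ z ∈ U, (z ∈ Ω ↔ f z < 0)

/-- `(A₁, A₂)` is a bounded measurable vector potential on `Ω` with `curl A = b 1_K` in the sense of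
distributions, `b = 2πΦ / |K|`. -/
structure IsPotential (Φ : ℝ) (Ω K : Set ℂ) (A₁ A₂ : ℂ → ℝ) : Prop where
  meas₁ : Measurable A₁
  meas₂ : Measurable A₂
  bdd : ∃ C : ℝ, ∀ z ∈ Ω, |A₁ z| ≤ C ∧ |A₂ z| ≤ C
  curl : ∀ φ : ℂ → ℝ, ContDiff ℝ ∞ φ → HasCompactSupport φ → tsupport φ ⊆ Ω →
    ∫ z in Ω, (A₂ z * fderiv ℝ φ z 1 - A₁ z * fderiv ℝ φ z I)
      = - ((2 * Real.pi * Φ / (volume K).toReal) * ∫ z in K, φ z)

/-- `‖u‖²` in `L²(Ω)`. -/
def mass (Ω : Set ℂ) (u : ℂ → ℂ) : ℝ≥0∞ := ∫⁻ z in Ω, ENNReal.ofReal (‖u z‖ ^ 2)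

/-- `‖(-i∇ - A) u‖²` in `L²(Ω)`; here `∂₁ u z = fderiv ℝ u z 1` and `∂₂ u z = fderiv ℝ u z I`. -/
def energy (Ω : Set ℂ) (A₁ A₂ : ℂ → ℝ) (u : ℂ → ℂ) : ℝ≥0∞ :=
  ∫⁻ z in Ω, ENNReal.ofReal (‖fderiv ℝ u z 1 - I * A₁ z * u z‖ ^ 2
    + ‖fderiv ℝ u z I - I * A₂ z * u z‖ ^ 2)

/-- The non-zero elements of `C^∞(Ω) ∩ H¹(Ω)`. -/
structure IsTest (Ω : Set ℂ) (u : ℂ → ℂ) : Prop where
  smooth : ContDiffOn ℝ ∞ u Ω
  mass_ne_zero : mass Ω u ≠ 0
  mass_ne_top : mass Ω u ≠ ⊤
  grad_ne_top : energy Ω 0 0 u ≠ ⊤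

/-- The infimum of `‖(-i∇ - A) u‖² / ‖u‖²` over non-zero `u ∈ C^∞(Ω) ∩ H¹(Ω)`. -/
def lamPot (Ω : Set ℂ) (A₁ A₂ : ℂ → ℝ) : ℝ≥0∞ :=
  ⨅ (u : ℂ → ℂ) (_ : IsTest Ω u), energy Ω A₁ A₂ u / mass Ω u

/-- `λ(Φ, Ω, K)`; by gauge invariance the infimum over the potentials changes nothing. -/
def lam (Φ : ℝ) (Ω K : Set ℂ) : ℝ≥0∞ :=
  ⨅ (A₁ : ℂ → ℝ) (A₂ : ℂ → ℝ) (_ : IsPotential Φ Ω K A₁ A₂), lamPot Ω A₁ A₂

lemma lam_le {Φ : ℝ} {Ω K : Set ℂ} {A₁ A₂ : ℂ → ℝ} (hA : IsPotential Φ Ω K A₁ A₂) {u : ℂ → ℂ}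
    (hu : IsTest Ω u) : lam Φ Ω K ≤ energy Ω A₁ A₂ u / mass Ω u := by
  unfold lam
  refine (iInf_le _ A₁).trans ((iInf_le _ A₂).trans ((iInf_le _ hA).trans ?_))
  unfold lamPot
  exact iInf₂_le u hu

/-! ### Ellipses are admissible -/

lemma isC1Domain_ell {a c : ℝ} (ha : 0 < a) (hc : 0 < c) : IsC1Domain (ell a c) where
  isOpen := isOpen_ell a c
  bounded := bounded_ell ha hc
  simplyConnected := simplyConnected_ell a c
  boundary := by
    intro p hp
    have hp1 : rho a c p = 1 := frontier_ell_subset a c hp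
    refine ⟨univ, Filter.univ_mem, fun z => rho a c z - 1, ?_, fderiv_rho_ne_zero hp1, ?_⟩
    · exact (((contDiff_rho a c).sub contDiff_const).of_le (by exact ENat.LEInfty.out)).contDiffOn
    · intro z _
      rw [rho_lt_iff]
      constructor <;> intro h <;> linarith

lemma volume_half {a' c' : ℝ} (ha : 0 < a') (hc : 0 < c') (h : a' * c' = 1 / 4) :
    (volume (ell a' c')).toReal = Real.pi / 4 := by
  rw [volume_ell_eq ha hc, h, ENNReal.toReal_ofReal (by positivity)]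
  ring

lemma isPotential_pot {a' c' : ℝ} (ha : 0 < a') (hc : 0 < c') (h : a' * c' = 1 / 4) (Φ : ℝ)
    {Ω : Set ℂ} (hΩ : Bornology.IsBounded Ω) :
    IsPotential Φ Ω (ell a' c') (pot1 (2 * a') (2 * c') Φ) (pot2 (2 * a') (2 * c') Φ) where
  meas₁ := (continuous_pot1 _ _ _).measurable
  meas₂ := (continuous_pot2 _ _ _).measurable
  bdd := by
    have hcomp : IsCompact (closure Ω) := hΩ.isCompact_closure
    obtain ⟨C₁, h1⟩ := hcomp.exists_bound_of_continuousOn
      (continuous_pot1 (2 * a') (2 * c') Φ).continuousOn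
    obtain ⟨C₂, h2⟩ := hcomp.exists_bound_of_continuousOn
      (continuous_pot2 (2 * a') (2 * c') Φ).continuousOn
    refine ⟨max C₁ C₂, fun z hz => ⟨?_, ?_⟩⟩
    · exact (h1 z (subset_closure hz)).trans (le_max_left _ _)
    · exact (h2 z (subset_closure hz)).trans (le_max_right _ _)
  curl := by
    intro φ hφ hφc hφs
    have hw := weak_curl (p := 2 * a') (q := 2 * c') (by positivity) (by positivity) Φ φ hφ hφc
    rw [setIntegral_eq_integral_of_forall_compl_eq_zero, hw, volume_half ha hc h]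
    · have e1 : 2 * a' / 2 = a' := by ring
      have e2 : 2 * c' / 2 = c' := by ring
      have e3 : 8 * Φ / (2 * a' * (2 * c')) = 2 * Real.pi * Φ / (Real.pi / 4) := by
        have : 2 * a' * (2 * c') = 1 := by linarith
        rw [this]
        have := Real.pi_pos
        field_simp
        ring
      rw [e1, e2, e3]
    · intro z hz
      have hzt : z ∉ tsupport φ := fun hh => hz (hφs hh)
      rw [fderiv_of_notMem_tsupport ℝ hzt]
      simp

/-! ### The discs -/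

/-- Mass of the test functions. -/
def Ntot : ℝ≥0∞ := ∫⁻ z in Metric.ball (0 : ℂ) 1, ENNReal.ofReal (gg (nsq z) ^ 2)

/-- Energy of the test functions. -/
def Etot : ℝ≥0∞ :=
  ∫⁻ z in Metric.ball (0 : ℂ) 1, ENNReal.ofReal (4 * nsq z * (deriv gg (nsq z)) ^ 2)

lemma Ntot_ne_zero : Ntot ≠ 0 := by
  intro h0
  unfold Ntot at h0
  have hmeas : Measurable (fun z => ENNReal.ofReal (gg (nsq z) ^ 2)) := by
    apply ENNReal.measurable_ofReal.comp
    exact ((contDiff_gg.continuous.comp continuous_nsq).measurable).pow_const 2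
  rw [lintegral_eq_zero_iff hmeas] at h0
  have hsub : volume (Metric.ball (((3 : ℝ) / 4 : ℝ) : ℂ) (1 / 8)) = 0 := by
    have h1 : ∀ᵐ z ∂(volume.restrict (Metric.ball (0 : ℂ) 1)),
        z ∉ Metric.ball (((3 : ℝ) / 4 : ℝ) : ℂ) (1 / 8) := by
      filter_upwards [h0] with z hz hmem
      have h2 : |z.re - 3 / 4| < 1 / 8 := by
        have := (Complex.abs_re_le_norm (z - (((3 : ℝ) / 4 : ℝ) : ℂ)))
        rw [Complex.sub_re, Complex.ofReal_re] at this
        rw [Metric.mem_ball, dist_eq_norm] at hmem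
        linarith
      have h3 : 1 / 4 < nsq z := by
        rw [abs_lt] at h2
        unfold nsq
        nlinarith [sq_nonneg z.im]
      have h4 := gg_pos h3
      have h5 : ENNReal.ofReal (gg (nsq z) ^ 2) = 0 := hz
      rw [ENNReal.ofReal_eq_zero] at h5
      have : 0 < gg (nsq z) ^ 2 := by positivity
      linarith
    rw [ae_restrict_iff' Metric.isOpen_ball.measurableSet] at h1
    have h2 : ∀ᵐ z : ℂ, z ∉ Metric.ball (((3 : ℝ) / 4 : ℝ) : ℂ) (1 / 8) := by
      filter_upwards [h1] with z hz hmem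
      apply hz _ hmem
      rw [Metric.mem_ball, dist_eq_norm] at hmem
      rw [mem_ball_zero_iff]
      calc ‖z‖ = ‖(z - (((3 : ℝ) / 4 : ℝ) : ℂ)) + (((3 : ℝ) / 4 : ℝ) : ℂ)‖ := by rw [sub_add_cancel]
        _ ≤ ‖z - (((3 : ℝ) / 4 : ℝ) : ℂ)‖ + ‖(((3 : ℝ) / 4 : ℝ) : ℂ)‖ := norm_add_le _ _
        _ < 1 / 8 + 3 / 4 := by
            rw [Complex.norm_real, Real.norm_of_nonneg (by norm_num)]
            linarith
        _ < 1 := by norm_num
    rwa [← measure_eq_zero_iff_ae_notMem] at h2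
  exact (Metric.measure_ball_pos volume _ (by norm_num)).ne' hsub

lemma Ntot_lt_top : Ntot < ⊤ :=
  lintegral_lt_top_of_continuous Metric.isBounded_ball
    ((contDiff_gg.continuous.comp continuous_nsq).pow 2)

lemma Etot_lt_top : Etot < ⊤ := by
  apply lintegral_lt_top_of_continuous Metric.isBounded_ball
  exact (continuous_const.mul continuous_nsq).mul
    (((contDiff_gg.continuous_deriv (by simp)).comp continuous_nsq).pow 2)

lemma mass_tf (j : ℕ) : mass (Metric.ball 0 1) (tf j) = Ntot := by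
  unfold mass Ntot
  apply lintegral_congr
  intro z
  rw [norm_tf]

lemma isTest_tf (j : ℕ) : IsTest (Metric.ball 0 1) (tf j) where
  smooth := (contDiff_tf j).contDiffOn
  mass_ne_zero := by rw [mass_tf]; exact Ntot_ne_zero
  mass_ne_top := by rw [mass_tf]; exact Ntot_lt_top.ne
  grad_ne_top := by
    apply ne_of_lt
    unfold energy
    apply lintegral_lt_top_of_continuous Metric.isBounded_ball
    have hc : ∀ v : ℂ, Continuous (fun z => fderiv ℝ (tf j) z v) := fun v =>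
      ((contDiff_tf j).continuous_fderiv (by simp)).clm_apply continuous_const
    have ht : Continuous (tf j) := (contDiff_tf j).continuous
    simp only [Pi.zero_apply, Complex.ofReal_zero, mul_zero, zero_mul, sub_zero]
    exact ((hc 1).norm.pow 2).add ((hc I).norm.pow 2)

lemma energy_tf (j : ℕ) :
    energy (Metric.ball 0 1) (pot1 (2 * (1 / 2)) (2 * (1 / 2)) (2 * j))
      (pot2 (2 * (1 / 2)) (2 * (1 / 2)) (2 * j)) (tf j) = Etot := by
  unfold energy Etot
  apply lintegral_congr_ae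
  apply ae_restrict_of_ae
  filter_upwards [ae_not_circle] with z hz
  congr 1
  have hdg : dg ((2 : ℝ) * (1 / 2))⁻¹ ((2 : ℝ) * (1 / 2))⁻¹ z = z := by
    apply Complex.ext <;> simp
  rcases lt_or_gt_of_ne hz with h | h
  · exact D_tf_in h j _ _
  · apply D_tf_out h j
    · unfold pot1
      rw [hdg]; ring
    · unfold pot2
      rw [hdg]; ring

lemma disc_upper (j : ℕ) :
    lam (2 * j) (Metric.ball 0 1) (Metric.ball 0 (1 / 2)) ≤ Etot / Ntot := by
  have hpot : IsPotential (2 * j) (Metric.ball (0 : ℂ) 1) (Metric.ball 0 (1 / 2))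
      (pot1 (2 * (1 / 2)) (2 * (1 / 2)) (2 * j)) (pot2 (2 * (1 / 2)) (2 * (1 / 2)) (2 * j)) := by
    rw [ball_eq_ell (by norm_num : (0 : ℝ) < 1 / 2)]
    exact isPotential_pot (by norm_num) (by norm_num) (by norm_num) _ Metric.isBounded_ball
  rw [← energy_tf j, ← mass_tf j]
  exact lam_le hpot (isTest_tf j)

/-! ### The ellipses -/

/-- The value is finite: potentials and test functions exist. -/
lemma lam_lt_top {a' c' : ℝ} (ha : 0 < a') (hc : 0 < c') (h : a' * c' = 1 / 4) (Φ : ℝ)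
    {Ω : Set ℂ} (hΩ : Bornology.IsBounded Ω) (hΩ0 : volume Ω ≠ 0) :
    lam Φ Ω (ell a' c') < ⊤ := by
  have hpot := isPotential_pot ha hc h Φ hΩ
  have hfin : volume Ω < ⊤ := hΩ.measure_lt_top
  have hmass : mass Ω (fun _ => 1) = volume Ω := by
    unfold mass; simp
  have htest : IsTest Ω (fun _ => (1 : ℂ)) := by
    refine ⟨contDiffOn_const, by rwa [hmass], by rw [hmass]; exact hfin.ne, ?_⟩
    unfold energy
    simp
  refine lt_of_le_of_lt (lam_le hpot htest) ?_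
  apply ENNReal.div_lt_top _ (by rwa [hmass])
  apply ne_of_lt
  unfold energy
  apply lintegral_lt_top_of_continuous hΩ
  have c1 : Continuous (fun z => ((pot1 (2 * a') (2 * c') Φ z : ℝ) : ℂ)) :=
    Complex.continuous_ofReal.comp (continuous_pot1 _ _ _)
  have c2 : Continuous (fun z => ((pot2 (2 * a') (2 * c') Φ z : ℝ) : ℂ)) :=
    Complex.continuous_ofReal.comp (continuous_pot2 _ _ _)
  simp only [fderiv_fun_const, Pi.zero_apply, zero_apply, zero_sub]
  exact ((((continuous_const.mul c1).mul continuous_const).neg).norm.pow 2).add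
    ((((continuous_const.mul c2).mul continuous_const).neg).norm.pow 2)

/-- Lower bound of `λ` on the elongated ellipse. -/
lemma ellipse_lower {c : ℝ} (hc : 0 < c) (hc2 : c ^ 2 ≤ 1 / 2) :
    ∃ Φ₀ : ℝ, ∀ Φ : ℝ, Φ₀ ≤ Φ →
      ENNReal.ofReal (1 / (258 * c ^ 2)) ≤ lam Φ (ell (1 / c) c)
        (ell ((1 - c ^ 2) * (1 / c)) ((1 / (4 * (1 - c ^ 2))) * c)) := by
  obtain ⟨b₀, hb₀⟩ := lower_bound hc hc2
  have h1 : 0 < 1 - c ^ 2 := by linarith
  have hvol : (volume (ell ((1 - c ^ 2) * (1 / c)) ((1 / (4 * (1 - c ^ 2))) * c))).toReal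
      = Real.pi / 4 := by
    apply volume_half (by positivity) (by positivity)
    field_simp
  refine ⟨b₀ / 8, fun Φ hΦ => ?_⟩
  refine le_iInf fun A₁ => le_iInf fun A₂ => le_iInf fun hA => le_iInf fun u => le_iInf fun hu => ?_
  have hb : b₀ ≤ 8 * Φ := by linarith
  have hcurl := hA.curl
  rw [hvol] at hcurl
  have e : 2 * Real.pi * Φ / (Real.pi / 4) = 8 * Φ := by
    have := Real.pi_pos
    field_simp
    ring
  rw [e] at hcurl
  have hmain := hb₀ (8 * Φ) hb A₁ A₂ hA.meas₁ hA.meas₂ hA.bdd hcurl u hu.smooth hu.mass_ne_top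
  rw [ENNReal.le_div_iff_mul_le (Or.inl hu.mass_ne_zero) (Or.inl hu.mass_ne_top)]
  have hmain' : mass (ell (1 / c) c) u ≤ ENNReal.ofReal (258 * c ^ 2)
      * energy (ell (1 / c) c) A₁ A₂ u := hmain
  calc ENNReal.ofReal (1 / (258 * c ^ 2)) * mass (ell (1 / c) c) u
      ≤ ENNReal.ofReal (1 / (258 * c ^ 2)) * (ENNReal.ofReal (258 * c ^ 2)
        * energy (ell (1 / c) c) A₁ A₂ u) := by gcongr
    _ = energy (ell (1 / c) c) A₁ A₂ u := by
        rw [← mul_assoc, ← ENNReal.ofReal_mul (by positivity)]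
        have : 1 / (258 * c ^ 2) * (258 * c ^ 2) = 1 := by field_simp
        rw [this, ENNReal.ofReal_one, one_mul]

/-- **Q1 is disproved, with an arbitrarily large gap.**  There is a constant `Λ` such that for every
`M` there are a flux `Φ` and bounded simply connected domains `K`, `Ω` with `C¹` boundaries,
`closure K ⊆ Ω`, `|Ω| = |D_1|`, `|K| = |D_{1/2}|`, with
`λ(Φ, D_1, D_{1/2}) ≤ Λ`, `λ(Φ, D_1, D_{1/2}) < λ(Φ, Ω, K)` and `M < λ(Φ, Ω, K) < ∞`. -/
theorem result :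
    ∃ Λ : ℝ≥0, ∀ M : ℝ≥0, ∃ (Φ : ℝ) (Ω K : Set ℂ),
      IsC1Domain Ω ∧ IsC1Domain K ∧ closure K ⊆ Ω ∧
      volume (Metric.ball (0 : ℂ) 1) = volume Ω ∧
      volume (Metric.ball (0 : ℂ) (1 / 2)) = volume K ∧
      lam Φ (Metric.ball 0 1) (Metric.ball 0 (1 / 2)) ≤ Λ ∧
      lam Φ (Metric.ball 0 1) (Metric.ball 0 (1 / 2)) < lam Φ Ω K ∧
      (M : ℝ≥0∞) < lam Φ Ω K ∧ lam Φ Ω K < ⊤ := by
  have hΛ : Etot / Ntot ≠ ⊤ := (ENNReal.div_lt_top Etot_lt_top.ne Ntot_ne_zero).ne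
  refine ⟨(Etot / Ntot).toNNReal, fun M => ?_⟩
  set L : ℝ := (Etot / Ntot).toReal + M with hL
  have hL0 : 0 ≤ L := by positivity
  set c : ℝ := 1 / (17 * (L + 1)) with hc
  have hc0 : 0 < c := by positivity
  have hc1 : c ≤ 1 / 17 := by
    rw [hc]
    apply one_div_le_one_div_of_le (by norm_num)
    linarith
  have hc2 : c ^ 2 ≤ 1 / 2 := by nlinarith
  have hLc : L < 1 / (258 * c ^ 2) := by
    rw [hc, div_pow, one_pow]
    have : 1 / (258 * (1 / (17 * (L + 1)) ^ 2)) = 289 * (L + 1) ^ 2 / 258 := by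
      field_simp
      ring
    rw [this]
    nlinarith
  obtain ⟨Φ₀, hΦ₀⟩ := ellipse_lower hc0 hc2
  obtain ⟨j, hj⟩ := exists_nat_ge Φ₀
  have hj2 : Φ₀ ≤ 2 * (j : ℝ) := by
    have : (0 : ℝ) ≤ j := Nat.cast_nonneg j
    linarith
  have h1 : 0 < 1 - c ^ 2 := by linarith
  have ha0 : 0 < (1 - c ^ 2) * (1 / c) := by positivity
  have hb0 : 0 < (1 / (4 * (1 - c ^ 2))) * c := by positivity
  have hprod : (1 - c ^ 2) * (1 / c) * ((1 / (4 * (1 - c ^ 2))) * c) = 1 / 4 := by field_simp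
  have hlow := hΦ₀ (2 * j) hj2
  have hM : ENNReal.ofReal L < ENNReal.ofReal (1 / (258 * c ^ 2)) :=
    (ENNReal.ofReal_lt_ofReal_iff (by positivity)).mpr hLc
  have hML : (M : ℝ≥0∞) ≤ ENNReal.ofReal L := by
    rw [← ENNReal.ofReal_coe_nnreal]
    apply ENNReal.ofReal_le_ofReal
    rw [hL]
    have : 0 ≤ (Etot / Ntot).toReal := ENNReal.toReal_nonneg
    linarith
  have hEL : Etot / Ntot ≤ ENNReal.ofReal L := by
    rw [← ENNReal.ofReal_toReal hΛ]
    apply ENNReal.ofReal_le_ofReal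
    rw [hL]
    have : (0 : ℝ) ≤ M := M.2
    linarith
  refine ⟨2 * j, ell (1 / c) c, ell ((1 - c ^ 2) * (1 / c)) ((1 / (4 * (1 - c ^ 2))) * c),
    isC1Domain_ell (by positivity) hc0, isC1Domain_ell ha0 hb0, ?_, ?_, ?_, ?_, ?_, ?_, ?_⟩
  · intro z hz
    have hz1 := closure_ell_subset _ _ hz
    have hαβ : 1 / (4 * (1 - c ^ 2)) ≤ 1 - c ^ 2 := by
      rw [div_le_iff₀ (by positivity)]
      nlinarith
    have h2 := rho_core (a := 1 / c) (c := c) (by positivity) hc0 h1 (by positivity) hαβ hz1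
    rw [rho_lt_iff]
    refine lt_of_le_of_lt h2 ?_
    have : 0 < c ^ 2 := by positivity
    nlinarith
  · rw [volume_ball_eq (by norm_num), volume_ell_eq (by positivity) hc0]
    congr 2
    field_simp
  · rw [volume_ball_eq (by norm_num), volume_ell_eq ha0 hb0, hprod]
    congr 2
    norm_num
  · rw [ENNReal.coe_toNNReal hΛ]
    exact disc_upper j
  · exact lt_of_le_of_lt ((disc_upper j).trans hEL) (lt_of_lt_of_le hM hlow)
  · exact lt_of_le_of_lt hML (lt_of_lt_of_le hM hlow)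
  · apply lam_lt_top ha0 hb0 hprod _ (bounded_ell (by positivity) hc0)
    rw [volume_ell_eq (by positivity) hc0]
    rw [Ne, ENNReal.ofReal_eq_zero, not_le]
    have : 1 / c * c = 1 := by field_simp
    rw [this, mul_one]
    exact Real.pi_pos

end Pool.Agent.Results.MP_d36e13_an.NoReverseFaberKrahn
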